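import Pool.Agent.H130R2.TU.Main

set_option autoImplicit false

namespace Pool.Agent.Results.MP_6552bf_co.TransversalBothCounts

open Filter Topology Pool.Agent

/-- `I` is a partial transversal of the family `A`: its elements can be matched injectively to
members of the family that contain them. -/
def IsPartialTransversal {n m : ℕ} (A : Fin m → Set (Fin n)) (I : Set (Fin n)) : Prop :=
  ∃ f : I → Fin m, Function.Injective f ∧ ∀ x : I, (x : Fin n) ∈ A (f x)

/-- A matroid with ground set `Fin n` is transversal if its independent sets are exactly the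
partial transversals of some finite family of subsets. -/
def IsTransversal {n : ℕ} (M : Matroid (Fin n)) : Prop :=
  M.E = Set.univ ∧ ∃ (m : ℕ) (A : Fin m → Set (Fin n)),
    ∀ I : Set (Fin n), M.Indep I ↔ IsPartialTransversal A I

/-- The rank of a set. -/
noncomputable def rk {n : ℕ} (M : Matroid (Fin n)) (X : Set (Fin n)) : ℕ := (M.eRk X).toNat

/-- The Tutte polynomial, in the variables `X 0` (for `x`) and `X 1` (for `y`). -/
noncomputable def tutte {n : ℕ} (M : Matroid (Fin n)) : MvPolynomial (Fin 2) ℤ :=
  ∑ X : Finset (Fin n),
    (MvPolynomial.X 0 - 1) ^ (rk M Set.univ - rk M (X : Set (Fin n))) *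
      (MvPolynomial.X 1 - 1) ^ (X.card - rk M (X : Set (Fin n)))

/-- Isomorphism of matroids with ground sets `Fin k` and `Fin n`: a bijection preserving
independence. -/
def Isomorphic {k n : ℕ} (N : Matroid (Fin k)) (M : Matroid (Fin n)) : Prop :=
  ∃ e : Fin k ≃ Fin n, ∀ I : Set (Fin k), N.Indep I ↔ M.Indep (e '' I)

/-- `M` is Tutte unique: every finite matroid `N` with the same Tutte polynomial is isomorphic
to `M`. -/
def TutteUnique {n : ℕ} (M : Matroid (Fin n)) : Prop :=
  ∀ (k : ℕ) (N : Matroid (Fin k)), N.E = Set.univ → tutte N = tutte M → Isomorphic N M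

/-- The labelled transversal matroids with ground set `Fin n`. -/
abbrev Labelled (n : ℕ) : Type := {M : Matroid (Fin n) // IsTransversal M}

/-- Isomorphism, as an equivalence relation on the labelled transversal matroids. -/
def isoSetoid (n : ℕ) : Setoid (Labelled n) where
  r M N := Isomorphic M.1 N.1
  iseqv := ⟨fun M => H130R2.TU.Iso.refl M.1, fun h => H130R2.TU.Iso.symm h,
    fun h h' => H130R2.TU.Iso.trans h h'⟩

/-- The isomorphism classes of transversal matroids on `n` elements. -/
abbrev Unlabelled (n : ℕ) : Type := Quotient (isoSetoid n)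

/-- A class is Tutte unique when it is the class of a Tutte unique matroid. -/
def ClassTutteUnique {n : ℕ} (c : Unlabelled n) : Prop :=
  ∃ M : Labelled n, Quotient.mk (isoSetoid n) M = c ∧ TutteUnique M.1

/-- Sanity check: the free matroid is transversal, so the denominators below are positive. -/
theorem free_transversal (n : ℕ) : IsTransversal (Matroid.freeOn (Set.univ : Set (Fin n))) := by
  refine ⟨rfl, n, fun i => {i}, ?_⟩
  intro I
  rw [Matroid.freeOn_indep_iff]
  constructor
  · intro _
    exact ⟨fun x => x, Subtype.val_injective, fun x => rfl⟩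
  · intro _
    exact Set.subset_univ I

/-- Sanity check: Tutte uniqueness does not depend on the representative of a class. -/
theorem classTutteUnique_mk {n : ℕ} (M : Labelled n) (h : ClassTutteUnique
    (Quotient.mk (isoSetoid n) M)) : TutteUnique M.1 := by
  obtain ⟨N, hN, hu⟩ := h
  have h1 : Isomorphic N.1 M.1 := Quotient.eq (r := isoSetoid n) |>.1 hN
  intro k P hP hPM
  -- the Tutte polynomial is invariant under isomorphism
  obtain ⟨e, he⟩ := h1
  have hmap : ∀ X : Set (Fin n), M.1.eRk (e '' X) = N.1.eRk X := by
    intro X
    apply le_antisymm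
    · rw [Matroid.eRk_le_iff]
      intro I hIX hI
      have h2 : e '' (e.symm '' I) = I := by
        rw [Set.image_image]
        simp
      have h3 : N.1.Indep (e.symm '' I) := by
        rw [he, h2]
        exact hI
      have h4 : e.symm '' I ⊆ X := by
        rintro x ⟨y, hy, rfl⟩
        obtain ⟨z, hz, hzy⟩ := hIX hy
        rw [← hzy]
        simpa using hz
      have h5 : (e.symm '' I).encard = I.encard := e.symm.injective.encard_image I
      rw [← h5, ← h3.eRk_eq_encard]
      exact N.1.eRk_mono h4
    · rw [Matroid.eRk_le_iff]
      intro I hIX hI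
      have h3 : M.1.Indep (e '' I) := (he I).1 hI
      have h5 : (e '' I).encard = I.encard := e.injective.encard_image I
      rw [← h5, ← h3.eRk_eq_encard]
      exact M.1.eRk_mono (Set.image_mono hIX)
  have htut : tutte N.1 = tutte M.1 := by
    unfold tutte
    refine Fintype.sum_equiv (Equiv.finsetCongr e) _ _ ?_
    intro X
    have h2 : (((Equiv.finsetCongr e) X : Finset (Fin n)) : Set (Fin n)) = e '' (X : Set (Fin n)) := by
      simp [Equiv.finsetCongr]
    have h3 : ((Equiv.finsetCongr e) X).card = X.card := by
      simp [Equiv.finsetCongr]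
    have h4 : M.1.eRk Set.univ = N.1.eRk Set.univ := by
      rw [← hmap]
      congr 1
      exact (Set.image_univ_of_surjective e.surjective).symm
    unfold rk
    rw [h2, h3, hmap, h4]
  obtain ⟨f, hf⟩ := hu k P hP (hPM.trans htut.symm)
  refine ⟨f.trans e, fun I => ?_⟩
  rw [hf, he, Set.image_image]
  rfl

/-- Almost no transversal matroid on `n` elements is Tutte unique, both when labelled matroids are
counted and when isomorphism classes are counted. -/
theorem result :
    Tendsto (fun n : ℕ =>
      (Nat.card {M : Labelled n // TutteUnique M.1} : ℝ) / (Nat.card (Labelled n) : ℝ))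
      atTop (𝓝 0) ∧
    Tendsto (fun n : ℕ =>
      (Nat.card {c : Unlabelled n // ClassTutteUnique c} : ℝ) / (Nat.card (Unlabelled n) : ℝ))
      atTop (𝓝 0) := by
  classical
  constructor
  · refine Helper46.T.main_tendsto.congr ?_
    intro n
    have h1 : Helper46.T.UU n = (Nat.card {M : Labelled n // TutteUnique M.1} : ℝ) := by
      have e : {M : Labelled n // TutteUnique M.1} ≃
          {M : Matroid (Fin n) // IsTransversal M ∧ TutteUnique M} :=
        Equiv.subtypeSubtypeEquivSubtypeInter IsTransversal TutteUnique
      rw [Nat.card_congr e, Nat.card_eq_fintype_card, Fintype.card_subtype]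
      rfl
    have h2 : Helper46.T.TT n = (Nat.card (Labelled n) : ℝ) := by
      rw [Nat.card_eq_fintype_card, Fintype.card_subtype]
      rfl
    rw [h1, h2]
  · refine H130R2.TU.iso_tendsto.congr ?_
    intro n
    -- the map from the quotient to the classes of all matroids
    let φ : Unlabelled n → Quotient (H130R2.TU.isoS n) :=
      Quotient.lift (fun M : Labelled n => H130R2.TU.cls M.1)
        (fun M N h => H130R2.TU.cls_eq.2 h)
    have hφ : Function.Injective φ := by
      intro a b
      refine Quotient.inductionOn₂ a b ?_
      intro M N h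
      exact Quotient.sound (s := isoSetoid n) (H130R2.TU.cls_eq.1 h)
    have h2 : H130R2.TU.TI n = (Nat.card (Unlabelled n) : ℝ) := by
      have e1 : Nat.card (Unlabelled n) = (Set.range φ).ncard := by
        rw [← Set.image_univ, Set.ncard_image_of_injective _ hφ, Set.ncard_univ]
      have e2 : Set.range φ = (((Finset.univ.filter
          (fun M : Matroid (Fin n) => Helper46.T.IsTransversal M)).image H130R2.TU.cls :
          Finset _) : Set (Quotient (H130R2.TU.isoS n))) := by
        ext c
        rw [Finset.mem_coe, Finset.mem_image]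
        constructor
        · rintro ⟨a, rfl⟩
          refine Quotient.inductionOn a ?_
          intro M
          exact ⟨M.1, by rw [Finset.mem_filter]; exact ⟨Finset.mem_univ _, M.2⟩, rfl⟩
        · rintro ⟨M, hM, rfl⟩
          rw [Finset.mem_filter] at hM
          exact ⟨Quotient.mk (isoSetoid n) ⟨M, hM.2⟩, rfl⟩
      rw [e1, e2, Set.ncard_coe_finset]
      rfl
    have h1 : H130R2.TU.UI n = (Nat.card {c : Unlabelled n // ClassTutteUnique c} : ℝ) := by
      have e1 : Nat.card {c : Unlabelled n // ClassTutteUnique c} =
          (φ '' {c | ClassTutteUnique c}).ncard := by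
        rw [Set.ncard_image_of_injective _ hφ]
        rfl
      have e2 : φ '' {c | ClassTutteUnique c} = (((Finset.univ.filter
          (fun M : Matroid (Fin n) => Helper46.T.IsTransversal M ∧
            Helper46.T.TutteUnique M)).image H130R2.TU.cls :
          Finset _) : Set (Quotient (H130R2.TU.isoS n))) := by
        ext c
        rw [Finset.mem_coe, Finset.mem_image]
        constructor
        · rintro ⟨a, ⟨M, rfl, hM⟩, rfl⟩
          exact ⟨M.1, by rw [Finset.mem_filter]; exact ⟨Finset.mem_univ _, M.2, hM⟩, rfl⟩
        · rintro ⟨M, hM, rfl⟩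
          rw [Finset.mem_filter] at hM
          exact ⟨Quotient.mk (isoSetoid n) ⟨M, hM.2.1⟩, ⟨_, rfl, hM.2.2⟩, rfl⟩
      rw [e1, e2, Set.ncard_coe_finset]
      rfl
    rw [h1, h2]

end Pool.Agent.Results.MP_6552bf_co.TransversalBothCounts
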